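import Pool.Agent.TH410.Equivalence
import Pool.Agent.Run7.h130.PRAll

/-!
# Linear partition rank bound for biased forms on every alphabet

The bound for the whole field (from the theorem that the partition rank is at most a constant times
the analytic rank) implies the bound for every alphabet with at least two letters.
-/

set_option autoImplicit false

namespace Run7.h288.BF

open Finset Module Pool.Agent.TH410

variable {p : ℕ} [Fact p.Prime]

/-- the product of two multilinear maps in complementary sets of variables -/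
theorem exists_split {d n : ℕ} (I : Finset (Fin d))
    (a : MultilinearMap (ZMod p) (fun _ : {i // i ∈ I} => (Fin n → ZMod p)) (ZMod p))
    (b : MultilinearMap (ZMod p) (fun _ : {i // i ∉ I} => (Fin n → ZMod p)) (ZMod p)) :
    ∃ T : Form p d n, ∀ x : Fin d → (Fin n → ZMod p),
      T x = a (fun i => x i) * b (fun i => x i) := by
  classical
  have hin : ∀ (x : Fin d → Fin n → ZMod p) (i : Fin d) (hi : i ∈ I) (v : Fin n → ZMod p),
      (fun j : {i // i ∈ I} => Function.update x i v j) =
        Function.update (fun j : {i // i ∈ I} => x j) ⟨i, hi⟩ v := by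
    intro x i hi v
    funext j
    by_cases hj : j = ⟨i, hi⟩
    · subst hj
      rw [Function.update_self, Function.update_self]
    · rw [Function.update_of_ne hj, Function.update_of_ne fun hc => hj (Subtype.ext hc)]
  have hin' : ∀ (x : Fin d → Fin n → ZMod p) (i : Fin d) (hi : i ∉ I) (v : Fin n → ZMod p),
      (fun j : {i // i ∉ I} => Function.update x i v j) =
        Function.update (fun j : {i // i ∉ I} => x j) ⟨i, hi⟩ v := by
    intro x i hi v
    funext j
    by_cases hj : j = ⟨i, hi⟩
    · subst hj
      rw [Function.update_self, Function.update_self]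
    · rw [Function.update_of_ne hj, Function.update_of_ne fun hc => hj (Subtype.ext hc)]
  have hout : ∀ (x : Fin d → Fin n → ZMod p) (i : Fin d) (hi : i ∉ I) (v : Fin n → ZMod p),
      (fun j : {i // i ∈ I} => Function.update x i v j) = fun j : {i // i ∈ I} => x j := by
    intro x i hi v
    funext j
    rw [Function.update_of_ne]
    intro hc
    exact hi (hc ▸ j.2)
  have hout' : ∀ (x : Fin d → Fin n → ZMod p) (i : Fin d) (hi : i ∈ I) (v : Fin n → ZMod p),
      (fun j : {i // i ∉ I} => Function.update x i v j) = fun j : {i // i ∉ I} => x j := by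
    intro x i hi v
    funext j
    rw [Function.update_of_ne]
    intro hc
    exact j.2 (hc ▸ hi)
  refine ⟨{ toFun := fun x => a (fun i => x i) * b (fun i => x i)
            map_update_add' := ?_
            map_update_smul' := ?_ }, fun x => rfl⟩
  · intro inst x i v w
    have : inst = fun a b => instDecidableEqFin _ a b := Subsingleton.elim _ _
    subst this
    by_cases hi : i ∈ I
    · rw [hin x i hi, hin x i hi, hin x i hi, hout' x i hi, hout' x i hi, hout' x i hi,
        a.map_update_add, add_mul]
    · rw [hin' x i hi, hin' x i hi, hin' x i hi, hout x i hi, hout x i hi, hout x i hi,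
        b.map_update_add, mul_add]
  · intro inst x i c v
    have : inst = fun a b => instDecidableEqFin _ a b := Subsingleton.elim _ _
    subst this
    by_cases hi : i ∈ I
    · rw [hin x i hi, hin x i hi, hout' x i hi, hout' x i hi,
        a.map_update_smul, smul_eq_mul, smul_eq_mul, mul_assoc]
    · rw [hin' x i hi, hin' x i hi, hout x i hi, hout x i hi,
        b.map_update_smul, smul_eq_mul, smul_eq_mul, mul_left_comm]

theorem ratio_eq {e n : ℕ} (m : Form p (e + 2) n) :
    (Nat.card {x : (i : Fin (e + 2)) → Fin n → ZMod p //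
      ∀ y : Fin n → ZMod p, m (Function.update x 0 y) = 0} : ℝ) /
      (Nat.card ((i : Fin (e + 2)) → Fin n → ZMod p) : ℝ) = ‖bias univ 1 m‖ := by
  classical
  rw [norm_bias_univ one_ne_zero]
  have hcount : Nat.card {x : (i : Fin (e + 2)) → Fin n → ZMod p //
      ∀ y : Fin n → ZMod p, m (Function.update x 0 y) = 0} =
      Nat.card (Fin n → ZMod p) * Nat.card {x : Fin (e + 1) → Fin n → ZMod p // coeff m x = 0} := by
    rw [← Nat.card_prod]
    refine Nat.card_congr
      { toFun := fun x => (x.1 0, ⟨Fin.tail x.1, ?_⟩)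
        invFun := fun z => ⟨Fin.cons z.1 z.2.1, ?_⟩
        left_inv := ?_
        right_inv := ?_ }
    · funext i
      have h1 := x.2 (Pi.single i 1)
      rw [← Fin.cons_self_tail x.1, Fin.update_cons_zero] at h1
      exact h1
    · intro y
      rw [Fin.update_cons_zero, coeff_spec, z.2.2]
      simp
    · rintro ⟨x, hx⟩
      refine Subtype.ext ?_
      exact Fin.cons_self_tail x
    · rintro ⟨z, ⟨y, hy⟩⟩
      refine Prod.ext ?_ ?_
      · exact Fin.cons_zero (α := fun _ => Fin n → ZMod p) z y
      · refine Subtype.ext ?_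
        exact Fin.tail_cons (α := fun _ => Fin n → ZMod p) z y
  have hp : pavg (unif p n) (e + 1) (fun x => zind (coeff m x)) =
      (Nat.card {x : Fin (e + 1) → Fin n → ZMod p // coeff m x = 0} : ℝ) /
        (Nat.card (Fin n → ZMod p) : ℝ) ^ (e + 1) := by
    unfold pavg
    simp only [unif_eq, Finset.prod_const, Finset.card_univ, Fintype.card_fin]
    rw [← Finset.mul_sum]
    have h2 : ∑ x : Fin (e + 1) → Fin n → ZMod p, zind (coeff m x) =
        (Nat.card {x : Fin (e + 1) → Fin n → ZMod p // coeff m x = 0} : ℝ) := by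
      have h3 : ∀ x : Fin (e + 1) → Fin n → ZMod p, zind (coeff m x) =
          if coeff m x = 0 then (1 : ℝ) else 0 := by
        intro x
        unfold zind
        by_cases hx : coeff m x = 0
        · rw [if_pos hx, if_pos hx]
        · rw [if_neg hx, if_neg hx]
      simp only [h3]
      rw [Finset.sum_ite, Finset.sum_const_zero, add_zero, Finset.sum_const, nsmul_eq_mul, mul_one,
        Nat.card_eq_fintype_card, Fintype.card_subtype]
    rw [h2, Nat.card_eq_fintype_card (α := Fin n → ZMod p), inv_pow]
    rw [div_eq_inv_mul]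
  rw [hp, hcount]
  have hc : Nat.card ((i : Fin (e + 2)) → Fin n → ZMod p) = Nat.card (Fin n → ZMod p) ^ (e + 2) := by
    rw [Nat.card_fun, Nat.card_eq_fintype_card (α := Fin (e + 2)), Fintype.card_fin]
  rw [hc]
  have hpos : (0 : ℝ) < Nat.card (Fin n → ZMod p) := by exact_mod_cast Nat.card_pos
  push_cast
  rw [pow_succ _ (e + 1), mul_comm ((Nat.card (Fin n → ZMod p) : ℝ) ^ (e + 1)),
    mul_div_mul_left _ _ hpos.ne']

theorem linearBound_univ (e : ℕ) : LinearBound p (e + 2) univ := by
  classical
  obtain ⟨C, hC⟩ := Run7.h130.pr_of_prfinal Run7.h130.pr_all e (ZMod p)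
  have hp : (1 : ℝ) < (Fintype.card (ZMod p) : ℝ) := by
    rw [ZMod.card]
    exact_mod_cast (Fact.out : p.Prime).one_lt
  have hlogp : 0 < Real.log (Fintype.card (ZMod p)) := Real.log_pos hp
  refine ⟨|C| / Real.log (Fintype.card (ZMod p)) + 1, by positivity, ?_⟩
  intro n ε m hε hε1 ⟨t, ht, hbias⟩
  rw [norm_bias_univ ht, ← norm_bias_univ one_ne_zero] at hbias
  obtain ⟨r, hr, S, a, b, hS, hsum⟩ := hC (fun _ => n) m
  have hratio := ratio_eq m
  have hB0 := bias_univ_pos m
  have hB1 := bias_univ_le_one m
  refine ⟨r, ?_, ?_⟩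
  · choose T hT using fun k => exists_split (p := p) (n := n) (S k) (a k) (b k)
    refine ⟨T, fun k => ⟨S k, (hS k).1, (hS k).2, a k, b k, hT k⟩, ?_⟩
    refine MultilinearMap.ext fun x => ?_
    rw [_root_.sum_apply]
    rw [hsum x]
    exact Finset.sum_congr rfl fun k _ => (hT k x).symm
  · refine hr.trans ?_
    have h0 : -Real.logb (Fintype.card (ZMod p)) ((Nat.card {x : (i : Fin (e + 2)) → Fin n → ZMod p //
      ∀ y : Fin n → ZMod p, m (Function.update x 0 y) = 0} : ℝ) /
      (Nat.card ((i : Fin (e + 2)) → Fin n → ZMod p) : ℝ)) =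
        -Real.log ‖bias univ 1 m‖ / Real.log (Fintype.card (ZMod p)) := by
      rw [hratio, Real.logb, neg_div]
    refine (le_of_eq (congrArg (fun z => C * z) h0)).trans ?_
    have h1 : 0 ≤ -Real.log ‖bias univ 1 m‖ := by
      have := Real.log_nonpos hB0.le hB1
      linarith
    have h2 : -Real.log ‖bias univ 1 m‖ ≤ Real.log (1 / ε) := by
      rw [one_div, Real.log_inv]
      have := Real.log_le_log hε hbias
      linarith
    have h3 : 0 ≤ Real.log (1 / ε) := h1.trans h2
    calc C * (-Real.log ‖bias univ 1 m‖ / Real.log (Fintype.card (ZMod p)))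
        ≤ |C| * (-Real.log ‖bias univ 1 m‖ / Real.log (Fintype.card (ZMod p))) :=
          mul_le_mul_of_nonneg_right (le_abs_self C) (by positivity)
      _ ≤ |C| * (Real.log (1 / ε) / Real.log (Fintype.card (ZMod p))) := by gcongr
      _ = |C| / Real.log (Fintype.card (ZMod p)) * Real.log (1 / ε) := by ring
      _ ≤ _ := by nlinarith

/-- the assertion of the problem, for every prime, every order and every alphabet -/
theorem linearBound_all (d : ℕ) (hd : 2 ≤ d) (S : Finset (ZMod p)) (hS : 2 ≤ S.card) :
    LinearBound p d S := by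
  obtain ⟨e, rfl⟩ : ∃ e, d = e + 2 := ⟨d - 2, by omega⟩
  exact (linearBound_univ e).of_univ hd hS

end Run7.h288.BF
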